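import Pool.Agent.Lib.HCD.F2

/-!
# MP_2173d5_co: the Kühn–Lapinskas–Osthus question holds asymptotically for all Dirac graphs

For every `ε > 0` every sufficiently large Dirac graph with an `r`-factor (`r` even) has at least
`(1 - ε) r / 2` pairwise edge-disjoint Hamilton cycles.
-/

set_option autoImplicit false

open scoped Classical

namespace Pool.Agent.Results.MP_2173d5_co.AllDiracGraphs

/-- Every Dirac graph `G` on `n ≥ n0(ε)` vertices has at least `(1 - ε) reg(G) / 2` pairwise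
edge-disjoint Hamilton cycles. -/
theorem result : ∀ ε : ℝ, 0 < ε → ∃ n0 : ℕ, ∀ n : ℕ, n0 ≤ n →
    ∀ G : SimpleGraph (Fin n), (∀ v, n ≤ 2 * G.degree v) → ∀ r : ℕ, Even r →
      (∃ H : SimpleGraph (Fin n), H ≤ G ∧ H.IsRegularOfDegree r) →
      ∃ k : ℕ, (1 - ε) * ((r : ℝ) / 2) ≤ k ∧ ∃ p : Fin k → Σ v : Fin n, G.Walk v v,
        (∀ i, (p i).2.IsHamiltonianCycle) ∧
        ∀ i j, i ≠ j → ∀ e ∈ (p i).2.edges, e ∉ (p j).2.edges :=
  fun ε hε => Pool.Agent.HCD.dirac_walks ε hε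

end Pool.Agent.Results.MP_2173d5_co.AllDiracGraphs
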